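import Pool.Agent.Helper8.PA.Final

/-!
# The maximum Laplacian energy of connected graphs, for every number of vertices

`MP_7a9f08_co`, Q1. For every `n ≥ 1` and `k = ⌊2n/3⌋` the pineapple `PA(n, k+1)` is a connected
graph of maximum Laplacian energy among the connected graphs on `n` vertices,
`M(n) = (2 - 2k/n) k (k+1) - 2 (2k/n - 1) (n - k - 1)`, and it is the only maximiser up to
isomorphism, except for `n = 4`, where the maximisers are `PA(4,3)`, `PA(4,4) = K_4` and `K_4 - e`.

Idea. For the spectral projection `P` on the `k` eigenvalues above the average degree the energy is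
the sum over ordered adjacent pairs of `D(u,v) - 2k/n`, `D(u,v) = |P(e_u - e_v)|^2`.
* Brouwer's inequality in the form `∑ max (D - 1, 0) ≤ k (k + 1)` for every projection of rank `k`
  killing the constants (`Pool.Agent.Helper8.BR`): a second moment identity, a cut inequality of
  Grone-Merris type for every vertex set (determinant maximum principle) and the layer cake
  decomposition over the level sets of the diagonal of `P`.
* It settles all `k < n/2`, `k = n/2`, `k > 3n/4` and the graphs with at least
  `k (k + 1)/2 + n - k - 1` edges. For fewer edges the sum of the other eigenvalues is bounded below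
  by the Grone-Merris inequality `∑ (d - k)_+` and by a spectral inequality at every vertex, and
  the degrees of a graph without isolated vertices leave no room (`Degs`).
* Equality forces `min (D, 2 - D) = |p_u - p_v|` for all pairs, which gives the pineapple (`Rigid`).
-/

namespace Pool.Agent.Results.MP_7a9f08_co.PineappleMax

open LapEn Pool.Agent.Helper8.PA

/-- For `n ≥ 1` and `k = ⌊2n/3⌋` the pineapple `PA(n, k+1)` has maximum Laplacian energy among the
connected graphs on `n` vertices; all maximisers. -/
theorem result :
    (∀ n k : ℕ, 1 ≤ n → k = 2 * n / 3 →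
      (pineapple n (k + 1)).Connected ∧
      lapEnergy (pineapple n (k + 1)) =
        (2 - 2 * (k : ℝ) / n) * (k * (k + 1)) - 2 * (2 * (k : ℝ) / n - 1) * ((n : ℝ) - k - 1) ∧
      ∀ (G : SimpleGraph (Fin n)) [DecidableRel G.Adj], G.Connected →
        lapEnergy G ≤ lapEnergy (pineapple n (k + 1)) ∧
        (n ≠ 4 → (lapEnergy G = lapEnergy (pineapple n (k + 1)) ↔
          Nonempty (G ≃g pineapple n (k + 1))))) ∧
    ∀ (G : SimpleGraph (Fin 4)) [DecidableRel G.Adj], G.Connected →
      (lapEnergy G = lapEnergy (pineapple 4 3) ↔
        Nonempty (G ≃g pineapple 4 3) ∨ Nonempty (G ≃g pineapple 4 4) ∨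
          Nonempty (G ≃g diamond)) := by
  refine ⟨fun n k hn hk => ?_, fun G _ hG => ?_⟩
  · subst hk
    exact main n hn
  · have h1 : lapEnergy (pineapple 4 3) = 6 := by
      have h2 : lapEnergy (pineapple 4 3) = Phi2 4 2 := (main 4 (by norm_num)).2.1
      rw [h2]
      unfold Phi2
      norm_num
    rw [h1]
    exact (small4 G hG).2

end Pool.Agent.Results.MP_7a9f08_co.PineappleMax
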